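import Mathlib.SetTheory.Cardinal.Finite
import Mathlib.Combinatorics.SimpleGraph.Basic

/-!
# Lifts of complete bipartite graphs and the expansion of small sets
-/

set_option autoImplicit false

namespace Pool.Agent.U20.DG

/-- The lift of the complete bipartite graph on `n + n` vertices with `q` layers. The vertices are
the pairs `(v, i)`, `v` a vertex of the complete bipartite graph and `i` one of `q` layers; for `u` on
the left side and `v` on the right side `(u, i)` is adjacent to `(v, x (u, v) i)`. -/
def lift {n q : ℕ} (x : Fin n × Fin n → Equiv.Perm (Fin q)) :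
    SimpleGraph ((Fin n ⊕ Fin n) × Fin q) where
  Adj a b := (∃ u v i, a = (Sum.inl u, i) ∧ b = (Sum.inr v, x (u, v) i)) ∨
    ∃ u v i, b = (Sum.inl u, i) ∧ a = (Sum.inr v, x (u, v) i)
  symm := ⟨fun _ _ h => h.symm⟩
  loopless := ⟨fun a h => by
    rcases h with ⟨u, v, i, h1, h2⟩ | ⟨u, v, i, h1, h2⟩
    · rw [h1] at h2
      exact Sum.inl_ne_inr (congrArg Prod.fst h2)
    · rw [h1] at h2
      exact Sum.inl_ne_inr (congrArg Prod.fst h2)⟩

/-- The number of edges of `G` with exactly one endpoint in `S`. -/
noncomputable def cut {V : Type} (G : SimpleGraph V) (S : Finset V) : ℕ :=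
  Nat.card {p : V × V // p.1 ∈ S ∧ p.2 ∉ S ∧ G.Adj p.1 p.2}

/-- Some set of `k` vertices has expansion `0`. -/
def SomeClosed {V : Type} (G : SimpleGraph V) (k : ℕ) : Prop :=
  ∃ S : Finset V, S.card = k ∧ cut G S = 0

/-- In the `d`-regular graph `G` all sets `S` of `k` vertices have expansion
`cut G S / (d |S|) ≥ 1 - 1 / g`. -/
def AllExpand {V : Type} (g : ℕ) (G : SimpleGraph V) (d k : ℕ) : Prop :=
  ∀ S : Finset V, S.card = k → (g - 1) * (d * S.card) ≤ g * cut G S

end Pool.Agent.U20.DG
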