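import Pool.Agent.U20.DG.Main
import Pool.Agent.U20.DG.SseDefs
import Pool.Agent.U20.DN.Map

/-!
# Small-set expansion of lifts of complete bipartite graphs
-/

set_option autoImplicit false

open Finset

namespace Pool.Agent.U20.DG

open Pool.Agent.U20.DN

variable {n q : ℕ}

theorem lift_adj_inl {x : Fin n × Fin n → Equiv.Perm (Fin q)} {u : Fin n} {i : Fin q}
    {b : (Fin n ⊕ Fin n) × Fin q} :
    (lift x).Adj (Sum.inl u, i) b ↔ ∃ v, b = (Sum.inr v, x (u, v) i) := by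
  constructor
  · rintro (⟨u', v, i', h1, h2⟩ | ⟨u', v, i', h1, h2⟩)
    · rw [Prod.mk.injEq] at h1
      have h3 : u = u' := Sum.inl_injective h1.1
      rw [h3, h1.2]
      exact ⟨v, h2⟩
    · rw [Prod.mk.injEq] at h2
      exact absurd h2.1 Sum.inl_ne_inr
  · rintro ⟨v, hv⟩
    exact Or.inl ⟨u, v, i, rfl, hv⟩

theorem lift_adj_inr {x : Fin n × Fin n → Equiv.Perm (Fin q)} {v : Fin n} {j : Fin q}
    {b : (Fin n ⊕ Fin n) × Fin q} :
    (lift x).Adj (Sum.inr v, j) b ↔ ∃ u, b = (Sum.inl u, (x (u, v)).symm j) := by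
  constructor
  · rintro (⟨u', v', i', h1, h2⟩ | ⟨u', v', i', h1, h2⟩)
    · rw [Prod.mk.injEq] at h1
      exact absurd h1.1.symm Sum.inl_ne_inr
    · rw [Prod.mk.injEq] at h2
      have h3 : v = v' := Sum.inr_injective h2.1
      refine ⟨u', ?_⟩
      rw [h1, h2.2, h3, Equiv.symm_apply_apply]
  · rintro ⟨u, hu⟩
    exact Or.inr ⟨u, v, (x (u, v)).symm j, hu, by rw [Equiv.apply_symm_apply]⟩

/-- The lift is `n`-regular. -/
theorem lift_regular (x : Fin n × Fin n → Equiv.Perm (Fin q)) (a : (Fin n ⊕ Fin n) × Fin q) :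
    Nat.card {b // (lift x).Adj a b} = n := by
  obtain ⟨v | v, i⟩ := a
  · refine (Nat.card_congr (Equiv.symm (Equiv.ofBijective
      (fun w : Fin n => (⟨(Sum.inr w, x (v, w) i), lift_adj_inl.2 ⟨w, rfl⟩⟩ :
        {b // (lift x).Adj (Sum.inl v, i) b})) ⟨fun w w' h => ?_, fun b => ?_⟩))).trans
          (Nat.card_fin n)
    · have h1 := congrArg Prod.fst (congrArg Subtype.val h)
      exact Sum.inr_injective h1
    · obtain ⟨w, hw⟩ := lift_adj_inl.1 b.2
      exact ⟨w, Subtype.ext hw.symm⟩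
  · refine (Nat.card_congr (Equiv.symm (Equiv.ofBijective
      (fun w : Fin n => (⟨(Sum.inl w, (x (w, v)).symm i), lift_adj_inr.2 ⟨w, rfl⟩⟩ :
        {b // (lift x).Adj (Sum.inr v, i) b})) ⟨fun w w' h => ?_, fun b => ?_⟩))).trans
          (Nat.card_fin n)
    · have h1 := congrArg Prod.fst (congrArg Subtype.val h)
      exact Sum.inl_injective h1
    · obtain ⟨w, hw⟩ := lift_adj_inr.1 b.2
      exact ⟨w, Subtype.ext hw.symm⟩

/-- A labeling which satisfies all constraints gives a closed set. -/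
theorem someClosed_of {x : Fin n × Fin n → Equiv.Perm (Fin q)}
    (h : ∃ LA LB : Fin n → Fin q, ∀ e : Fin n × Fin n, x e (LA e.1) = LB e.2) :
    SomeClosed (lift x) (2 * n) := by
  classical
  obtain ⟨LA, LB, h⟩ := h
  obtain ⟨L, hL⟩ : ∃ L : Fin n ⊕ Fin n → Fin q, L = Sum.elim LA LB := ⟨_, rfl⟩
  refine ⟨univ.image fun v => (v, L v), ?_, ?_⟩
  · rw [card_image_of_injective _ (fun v w hvw => congrArg Prod.fst hvw), card_univ,
      Fintype.card_sum, Fintype.card_fin]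
    ring
  · unfold cut
    rw [Nat.card_eq_zero]
    left
    refine ⟨fun p => ?_⟩
    obtain ⟨⟨a, b⟩, h1, h2, h3⟩ := p
    simp only [mem_image, mem_univ, true_and] at h1 h2
    obtain ⟨v, rfl⟩ := h1
    apply h2
    obtain v | v := v
    · obtain ⟨w, hw⟩ := lift_adj_inl.1 h3
      refine ⟨Sum.inr w, ?_⟩
      have hw' : b = (Sum.inr w, x (v, w) (L (Sum.inl v))) := hw
      rw [hw', hL]
      show (Sum.inr w, LB w) = (Sum.inr w, x (v, w) (LA v))
      rw [h (v, w)]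
    · obtain ⟨w, hw⟩ := lift_adj_inr.1 h3
      refine ⟨Sum.inl w, ?_⟩
      have hw' : b = (Sum.inl w, (x (w, v)).symm (L (Sum.inr v))) := hw
      rw [hw', hL]
      show (Sum.inl w, LA w) = (Sum.inl w, (x (w, v)).symm (LB v))
      rw [← h (w, v), Equiv.symm_apply_apply]

/-- A closed set of `2 n` vertices is a labeling which satisfies all constraints. -/
theorem of_someClosed {x : Fin n × Fin n → Equiv.Perm (Fin q)}
    (h : SomeClosed (lift x) (2 * n)) :
    ∃ LA LB : Fin n → Fin q, ∀ e : Fin n × Fin n, x e (LA e.1) = LB e.2 := by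
  classical
  obtain ⟨S, hS, hc⟩ := h
  have hcl : ∀ a b, a ∈ S → (lift x).Adj a b → b ∈ S := by
    intro a b ha hab
    by_contra hb
    unfold cut at hc
    rw [Nat.card_eq_zero] at hc
    rcases hc with hc | hc
    · exact hc.false ⟨(a, b), ha, hb, hab⟩
    · exact hc.not_finite (Subtype.finite)
  obtain ⟨F, hF⟩ : ∃ F : Fin n ⊕ Fin n → Finset (Fin q),
      ∀ v i, i ∈ F v ↔ (v, i) ∈ S :=
    ⟨fun v => univ.filter fun i => (v, i) ∈ S, fun v i => by simp⟩
  have hle : ∀ u v : Fin n, (F (Sum.inl u)).card = (F (Sum.inr v)).card := by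
    intro u v
    refine le_antisymm ?_ ?_
    · refine card_le_card_of_injOn (fun i => x (u, v) i) (fun i hi => ?_)
        (x (u, v)).injective.injOn
      rw [mem_coe, hF] at hi ⊢
      exact hcl _ _ hi (lift_adj_inl.2 ⟨v, rfl⟩)
    · refine card_le_card_of_injOn (fun i => (x (u, v)).symm i) (fun i hi => ?_)
        (x (u, v)).symm.injective.injOn
      rw [mem_coe, hF] at hi ⊢
      exact hcl _ _ hi (lift_adj_inr.2 ⟨u, rfl⟩)
  have hsum : ∑ v, (F v).card = 2 * n := by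
    rw [← hS, ← card_sigma]
    refine card_bij (fun p _ => (p.1, p.2)) (fun p hp => ?_) (fun p _ p' _ h => ?_)
      (fun a ha => ?_)
    · rw [mem_sigma] at hp
      exact (hF _ _).1 hp.2
    · obtain ⟨a, b⟩ := p
      obtain ⟨a', b'⟩ := p'
      simp only [Prod.mk.injEq] at h
      rw [h.1, h.2]
    · exact ⟨⟨a.1, a.2⟩, mem_sigma.2 ⟨mem_univ _, (hF _ _).2 ha⟩, rfl⟩
  have hone : ∀ v, (F v).card = 1 := by
    rcases Nat.eq_zero_or_pos n with hn | hn
    · subst hn
      rintro (v | v) <;> exact v.elim0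
    have h0 : ∀ v, (F v).card = (F (Sum.inl ⟨0, hn⟩)).card := by
      rintro (v | v)
      · rw [hle v ⟨0, hn⟩, hle ⟨0, hn⟩ ⟨0, hn⟩]
      · rw [hle ⟨0, hn⟩ v]
    rw [sum_congr rfl (fun v _ => h0 v), sum_const, card_univ, Fintype.card_sum,
      Fintype.card_fin, smul_eq_mul] at hsum
    intro v
    rw [h0 v]
    have h1 : (n + n) * (F (Sum.inl ⟨0, hn⟩)).card = (n + n) * 1 := by omega
    exact Nat.eq_of_mul_eq_mul_left (by omega) h1
  choose L hL using fun v => card_eq_one.1 (hone v)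
  refine ⟨fun u => L (Sum.inl u), fun v => L (Sum.inr v), fun e => ?_⟩
  have h1 : L (Sum.inl e.1) ∈ F (Sum.inl e.1) := by
    rw [hL]; exact mem_singleton_self _
  have h2 : x e (L (Sum.inl e.1)) ∈ F (Sum.inr e.2) :=
    (hF _ _).2 (hcl _ _ ((hF _ _).1 h1) (lift_adj_inl.2 ⟨e.2, rfl⟩))
  rw [hL] at h2
  exact mem_singleton.1 h2

/-- Small value of the game implies expansion. -/
theorem allExpand_of {x : Fin n × Fin n → Equiv.Perm (Fin q)} {g : ℕ} (hg : 1 ≤ g) (hq : 1 ≤ q)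
    (h : ∀ LA LB : Fin n → Fin q,
      32 * g ^ 3 * Nat.card {e : Fin n × Fin n // x e (LA e.1) = LB e.2} ≤ n * n) :
    ∀ S : Finset ((Fin n ⊕ Fin n) × Fin q), S.card = 2 * n →
      (g - 1) * (n * S.card) ≤ g * cut (lift x) S := by
  classical
  intro S hS
  obtain ⟨F, hF⟩ : ∃ F : Fin n ⊕ Fin n → Finset (Fin q),
      ∀ v i, i ∈ F v ↔ (v, i) ∈ S :=
    ⟨fun v => univ.filter fun i => (v, i) ∈ S, fun v i => by simp⟩
  -- the two sides of `S`
  obtain ⟨A, hA⟩ : ∃ A : Finset (Fin n × Fin q), ∀ p, p ∈ A ↔ (Sum.inl p.1, p.2) ∈ S :=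
    ⟨univ.filter fun p => (Sum.inl p.1, p.2) ∈ S, fun p => by simp⟩
  obtain ⟨B, hB⟩ : ∃ B : Finset (Fin n × Fin q), ∀ p, p ∈ B ↔ (Sum.inr p.1, p.2) ∈ S :=
    ⟨univ.filter fun p => (Sum.inr p.1, p.2) ∈ S, fun p => by simp⟩
  have hAB : A.card + B.card = 2 * n := by
    rw [← hS, ← card_disjSum]
    refine card_bij (fun p _ => match p with
      | Sum.inl a => (Sum.inl a.1, a.2)
      | Sum.inr b => (Sum.inr b.1, b.2)) (fun p hp => ?_) (fun p _ p' _ h => ?_)
      (fun a ha => ?_)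
    · rcases mem_disjSum.1 hp with ⟨a, ha, rfl⟩ | ⟨b, hb, rfl⟩
      · exact (hA _).1 ha
      · exact (hB _).1 hb
    · rcases p with p | p <;> rcases p' with p' | p'
      · simp only [Prod.mk.injEq, Sum.inl.injEq] at h
        exact congrArg _ (Prod.ext h.1 h.2)
      · simp at h
      · simp at h
      · simp only [Prod.mk.injEq, Sum.inr.injEq] at h
        exact congrArg _ (Prod.ext h.1 h.2)
    · obtain ⟨v | v, i⟩ := a
      · exact ⟨Sum.inl (v, i), by simp [hA, ha], rfl⟩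
      · exact ⟨Sum.inr (v, i), by simp [hB, ha], rfl⟩
  -- the edges with one given endpoint in `S`
  obtain ⟨EA, hEA⟩ : ∃ E : Finset ((Fin n × Fin n) × Fin q),
      E = univ.filter fun p => (Sum.inl p.1.1, p.2) ∈ S := ⟨_, rfl⟩
  obtain ⟨EB, hEB⟩ : ∃ E : Finset ((Fin n × Fin n) × Fin q),
      E = univ.filter fun p => (Sum.inr p.1.2, x p.1 p.2) ∈ S := ⟨_, rfl⟩
  have cA : n * A.card ≤ EA.card := by
    have h1 : (univ ×ˢ A : Finset (Fin n × (Fin n × Fin q))).card = n * A.card := by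
      rw [card_product, card_univ, Fintype.card_fin]
    rw [← h1]
    refine card_le_card_of_injOn (fun p => ((p.2.1, p.1), p.2.2)) (fun p hp => ?_)
      (fun p _ p' _ h => ?_)
    · rw [mem_coe, mem_product] at hp
      rw [mem_coe, hEA, mem_filter]
      exact ⟨mem_univ _, (hA _).1 hp.2⟩
    · simp only [Prod.mk.injEq] at h
      exact Prod.ext h.1.2 (Prod.ext h.1.1 h.2)
  have cB : n * B.card ≤ EB.card := by
    have h1 : (univ ×ˢ B : Finset (Fin n × (Fin n × Fin q))).card = n * B.card := by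
      rw [card_product, card_univ, Fintype.card_fin]
    rw [← h1]
    refine card_le_card_of_injOn (fun p => ((p.1, p.2.1), (x (p.1, p.2.1)).symm p.2.2))
      (fun p hp => ?_) (fun p _ p' _ h => ?_)
    · rw [mem_coe, mem_product] at hp
      rw [mem_coe, hEB, mem_filter]
      refine ⟨mem_univ _, ?_⟩
      show (Sum.inr p.2.1, x (p.1, p.2.1) ((x (p.1, p.2.1)).symm p.2.2)) ∈ S
      rw [Equiv.apply_symm_apply]
      exact (hB _).1 hp.2
    · obtain ⟨u, v, j⟩ := p
      obtain ⟨u', v', j'⟩ := p'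
      simp only [Prod.mk.injEq] at h
      obtain ⟨⟨rfl, rfl⟩, h3⟩ := h
      rw [(x (u, v)).symm.injective h3]
  obtain ⟨J, hJ⟩ : ∃ J : Finset ((Fin n × Fin n) × Fin q), J = EA ∩ EB := ⟨_, rfl⟩
  have hcut : (EA \ EB).card + (EB \ EA).card ≤ cut (lift x) S := by
    unfold cut
    rw [Nat.card_eq_fintype_card, Fintype.card_subtype, ← card_disjSum]
    refine card_le_card_of_injOn (fun p => match p with
      | Sum.inl a => ((Sum.inl a.1.1, a.2), (Sum.inr a.1.2, x a.1 a.2))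
      | Sum.inr a => ((Sum.inr a.1.2, x a.1 a.2), (Sum.inl a.1.1, a.2))) (fun p hp => ?_)
      (fun p _ p' _ h => ?_)
    · rcases mem_disjSum.1 (mem_coe.1 hp) with ⟨a, ha, rfl⟩ | ⟨a, ha, rfl⟩
      · rw [mem_sdiff, hEA, hEB, mem_filter, mem_filter] at ha
        rw [mem_coe, mem_filter]
        exact ⟨mem_univ _, ha.1.2, fun hc => ha.2 ⟨mem_univ _, hc⟩,
          lift_adj_inl.2 ⟨a.1.2, rfl⟩⟩
      · rw [mem_sdiff, hEA, hEB, mem_filter, mem_filter] at ha
        rw [mem_coe, mem_filter]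
        refine ⟨mem_univ _, ha.1.2, fun hc => ha.2 ⟨mem_univ _, hc⟩,
          lift_adj_inr.2 ⟨a.1.1, ?_⟩⟩
        show (Sum.inl a.1.1, a.2) = (Sum.inl a.1.1, (x (a.1.1, a.1.2)).symm (x a.1 a.2))
        rw [Prod.mk.eta, Equiv.symm_apply_apply]
    · rcases p with p | p <;> rcases p' with p' | p'
      · simp only [Prod.mk.injEq, Sum.inl.injEq, Sum.inr.injEq] at h
        exact congrArg _ (Prod.ext (Prod.ext h.1.1 h.2.1) h.1.2)
      · simp at h
      · simp at h
      · simp only [Prod.mk.injEq, Sum.inl.injEq, Sum.inr.injEq] at h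
        exact congrArg _ (Prod.ext (Prod.ext h.2.1 h.1.1) h.2.2)
  have hcA : (EA \ EB).card + J.card = EA.card := by
    rw [hJ]; exact card_sdiff_add_card_inter EA EB
  have hcB : (EB \ EA).card + J.card = EB.card := by
    rw [hJ, inter_comm]; exact card_sdiff_add_card_inter EB EA
  -- the inner edges
  have hsA : ∑ u, (F (Sum.inl u)).card = A.card := by
    rw [← card_sigma]
    refine card_bij (fun p _ => (p.1, p.2)) (fun p hp => ?_) (fun p _ p' _ h => ?_)
      (fun a ha => ?_)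
    · rw [mem_sigma] at hp
      exact (hA _).2 ((hF _ _).1 hp.2)
    · obtain ⟨a, b⟩ := p
      obtain ⟨a', b'⟩ := p'
      simp only [Prod.mk.injEq] at h
      rw [h.1, h.2]
    · exact ⟨⟨a.1, a.2⟩, mem_sigma.2 ⟨mem_univ _, (hF _ _).2 ((hA _).1 ha)⟩, rfl⟩
  have hsB : ∑ u, (F (Sum.inr u)).card = B.card := by
    rw [← card_sigma]
    refine card_bij (fun p _ => (p.1, p.2)) (fun p hp => ?_) (fun p _ p' _ h => ?_)
      (fun a ha => ?_)
    · rw [mem_sigma] at hp
      exact (hB _).2 ((hF _ _).1 hp.2)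
    · obtain ⟨a, b⟩ := p
      obtain ⟨a', b'⟩ := p'
      simp only [Prod.mk.injEq] at h
      rw [h.1, h.2]
    · exact ⟨⟨a.1, a.2⟩, mem_sigma.2 ⟨mem_univ _, (hF _ _).2 ((hB _).1 ha)⟩, rfl⟩
  have hJm : ∀ p ∈ J, p.2 ∈ F (Sum.inl p.1.1) ∧ x p.1 p.2 ∈ F (Sum.inr p.1.2) := by
    intro p hp
    rw [hJ, mem_inter, hEA, hEB, mem_filter, mem_filter] at hp
    exact ⟨(hF _ _).2 hp.1.2, (hF _ _).2 hp.2.2⟩
  obtain ⟨J1, hJ1⟩ : ∃ J1, J1 = J.filter fun p => 4 * g < (F (Sum.inl p.1.1)).card := ⟨_, rfl⟩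
  obtain ⟨J2, hJ2⟩ : ∃ J2, J2 = J.filter fun p => 4 * g < (F (Sum.inr p.1.2)).card := ⟨_, rfl⟩
  obtain ⟨J3, hJ3⟩ : ∃ J3, J3 = J.filter fun p => (F (Sum.inl p.1.1)).card ≤ 4 * g ∧
    (F (Sum.inr p.1.2)).card ≤ 4 * g := ⟨_, rfl⟩
  have hJJ : J.card ≤ J1.card + J2.card + J3.card := by
    have h1 : J ⊆ (J1 ∪ J2) ∪ J3 := by
      intro p hp
      rw [mem_union, mem_union, hJ1, hJ2, hJ3, mem_filter, mem_filter, mem_filter]
      by_cases h2 : 4 * g < (F (Sum.inl p.1.1)).card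
      · exact Or.inl (Or.inl ⟨hp, h2⟩)
      · by_cases h3 : 4 * g < (F (Sum.inr p.1.2)).card
        · exact Or.inl (Or.inr ⟨hp, h3⟩)
        · exact Or.inr ⟨hp, by omega, by omega⟩
    exact (card_le_card h1).trans ((card_union_le _ _).trans
      (Nat.add_le_add_right (card_union_le _ _) _))
  have hAB4 : 4 * (A.card * B.card) ≤ 4 * (n * n) := by
    obtain ⟨a, ha⟩ : ∃ a, a = A.card := ⟨_, rfl⟩
    obtain ⟨b, hb⟩ : ∃ b, b = B.card := ⟨_, rfl⟩
    rw [← ha, ← hb] at hAB ⊢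
    have h1 : (a + b) * (a + b) = 4 * (n * n) := by rw [hAB]; ring
    have h2 : 4 * (a * b) ≤ (a + b) * (a + b) := by
      rcases le_total a b with h3 | h3
      · obtain ⟨c, rfl⟩ := Nat.exists_eq_add_of_le h3
        nlinarith
      · obtain ⟨c, rfl⟩ := Nat.exists_eq_add_of_le h3
        nlinarith
    omega
  have b1 : 4 * g * J1.card ≤ A.card * B.card := by
    have h1 : J1.card ≤ ((univ.filter fun u => 4 * g < (F (Sum.inl u)).card) ×ˢ B).card := by
      refine card_le_card_of_injOn (fun p => (p.1.1, (p.1.2, x p.1 p.2))) (fun p hp => ?_)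
        (fun p _ p' _ h => ?_)
      · rw [mem_coe, hJ1, mem_filter] at hp
        rw [mem_coe, mem_product, mem_filter]
        exact ⟨⟨mem_univ _, hp.2⟩, (hB _).2 ((hF _ _).1 (hJm _ hp.1).2)⟩
      · obtain ⟨⟨u, v⟩, i⟩ := p
        obtain ⟨⟨u', v'⟩, i'⟩ := p'
        simp only [Prod.mk.injEq] at h
        obtain ⟨rfl, rfl, h3⟩ := h
        rw [(x (u, v)).injective h3]
    rw [card_product] at h1
    have h2 : 4 * g * (univ.filter fun u => 4 * g < (F (Sum.inl u)).card).card ≤ A.card := by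
      rw [← hsA, mul_comm, ← smul_eq_mul, ← sum_const]
      calc _ ≤ ∑ u ∈ univ.filter (fun u => 4 * g < (F (Sum.inl u)).card),
            (F (Sum.inl u)).card := sum_le_sum fun u hu => (mem_filter.1 hu).2.le
        _ ≤ _ := sum_le_sum_of_subset (filter_subset _ _)
    calc 4 * g * J1.card ≤ 4 * g * _ := Nat.mul_le_mul_left _ h1
      _ = _ := (mul_assoc _ _ _).symm
      _ ≤ _ := Nat.mul_le_mul_right _ h2
  have b2 : 4 * g * J2.card ≤ A.card * B.card := by
    have h1 : J2.card ≤ ((univ.filter fun u => 4 * g < (F (Sum.inr u)).card) ×ˢ A).card := by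
      refine card_le_card_of_injOn (fun p => (p.1.2, (p.1.1, p.2))) (fun p hp => ?_)
        (fun p _ p' _ h => ?_)
      · rw [mem_coe, hJ2, mem_filter] at hp
        rw [mem_coe, mem_product, mem_filter]
        exact ⟨⟨mem_univ _, hp.2⟩, (hA _).2 ((hF _ _).1 (hJm _ hp.1).1)⟩
      · obtain ⟨⟨u, v⟩, i⟩ := p
        obtain ⟨⟨u', v'⟩, i'⟩ := p'
        simp only [Prod.mk.injEq] at h
        obtain ⟨rfl, rfl, rfl⟩ := h
        rfl
    rw [card_product] at h1
    have h2 : 4 * g * (univ.filter fun u => 4 * g < (F (Sum.inr u)).card).card ≤ B.card := by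
      rw [← hsB, mul_comm, ← smul_eq_mul, ← sum_const]
      calc _ ≤ ∑ u ∈ univ.filter (fun u => 4 * g < (F (Sum.inr u)).card),
            (F (Sum.inr u)).card := sum_le_sum fun u hu => (mem_filter.1 hu).2.le
        _ ≤ _ := sum_le_sum_of_subset (filter_subset _ _)
    rw [mul_comm A.card]
    calc 4 * g * J2.card ≤ 4 * g * _ := Nat.mul_le_mul_left _ h1
      _ = _ := (mul_assoc _ _ _).symm
      _ ≤ _ := Nat.mul_le_mul_right _ h2
  have b3 : 2 * g * J3.card ≤ n * n := by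
    have hf : ∀ v, ∃ f : Fin (4 * g) → Fin q, (F v).card ≤ 4 * g → ∀ i ∈ F v, ∃ c, f c = i := by
      intro v
      refine ⟨fun c => if h : c.val < (F v).card then ((F v).equivFin.symm ⟨c.val, h⟩).1
        else ⟨0, hq⟩, fun hc i hi => ?_⟩
      have h1 := ((F v).equivFin ⟨i, hi⟩).2
      refine ⟨⟨((F v).equivFin ⟨i, hi⟩).val, lt_of_lt_of_le h1 hc⟩, ?_⟩
      refine (dif_pos h1).trans ?_
      have h2 : (⟨((F v).equivFin ⟨i, hi⟩).val, h1⟩ : Fin (F v).card) =
        (F v).equivFin ⟨i, hi⟩ := rfl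
      rw [h2, Equiv.symm_apply_apply]
    choose f hf using hf
    obtain ⟨T, hT⟩ : ∃ T : Finset ((Fin (4 * g) × Fin (4 * g)) × (Fin n × Fin n)),
        T = univ.filter fun p => x p.2 (f (Sum.inl p.2.1) p.1.1) = f (Sum.inr p.2.2) p.1.2 :=
      ⟨_, rfl⟩
    have hcode : ∀ p ∈ J3, ∃ c : Fin (4 * g) × Fin (4 * g),
        f (Sum.inl p.1.1) c.1 = p.2 ∧ f (Sum.inr p.1.2) c.2 = x p.1 p.2 := by
      intro p hp
      rw [hJ3, mem_filter] at hp
      obtain ⟨c1, hc1⟩ := hf _ hp.2.1 _ (hJm _ hp.1).1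
      obtain ⟨c2, hc2⟩ := hf _ hp.2.2 _ (hJm _ hp.1).2
      exact ⟨(c1, c2), hc1, hc2⟩
    have h1 : J3.card ≤ T.card := by
      have hne : ∀ p : (Fin n × Fin n) × Fin q, ∃ c : Fin (4 * g) × Fin (4 * g), p ∈ J3 →
          f (Sum.inl p.1.1) c.1 = p.2 ∧ f (Sum.inr p.1.2) c.2 = x p.1 p.2 := by
        intro p
        by_cases hp : p ∈ J3
        · obtain ⟨c, hc⟩ := hcode p hp
          exact ⟨c, fun _ => hc⟩
        · exact ⟨(⟨0, by omega⟩, ⟨0, by omega⟩), fun h => absurd h hp⟩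
      choose code hcd using hne
      refine card_le_card_of_injOn (fun p => (code p, p.1)) (fun p hp => ?_)
        (fun p hp p' hp' h => ?_)
      · rw [mem_coe, hT, mem_filter]
        obtain ⟨h2, h3⟩ := hcd p hp
        refine ⟨mem_univ _, ?_⟩
        show x p.1 (f (Sum.inl p.1.1) (code p).1) = f (Sum.inr p.1.2) (code p).2
        rw [h2, h3]
      · obtain ⟨h2, -⟩ := hcd p hp
        obtain ⟨h3, -⟩ := hcd p' hp'
        simp only [Prod.mk.injEq] at h
        refine Prod.ext h.2 ?_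
        rw [← h2, ← h3, h.1, h.2]
    have h2 : 32 * g ^ 3 * T.card ≤ (4 * g) * (4 * g) * (n * n) := by
      have h3 : T.card = ∑ c : Fin (4 * g) × Fin (4 * g),
          (univ.filter fun e : Fin n × Fin n =>
            x e (f (Sum.inl e.1) c.1) = f (Sum.inr e.2) c.2).card := by
        rw [← card_sigma]
        refine (card_bij (fun p _ => (p.1, p.2)) (fun p hp => ?_) (fun p _ p' _ h => ?_)
          (fun a ha => ?_)).symm
        · rw [mem_sigma, mem_filter] at hp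
          rw [hT, mem_filter]
          exact ⟨mem_univ _, hp.2.2⟩
        · obtain ⟨a, b⟩ := p
          obtain ⟨a', b'⟩ := p'
          simp only [Prod.mk.injEq] at h
          rw [h.1, h.2]
        · rw [hT, mem_filter] at ha
          exact ⟨⟨a.1, a.2⟩, mem_sigma.2 ⟨mem_univ _, mem_filter.2 ⟨mem_univ _, ha.2⟩⟩, rfl⟩
      rw [h3, mul_sum]
      calc _ ≤ ∑ _c : Fin (4 * g) × Fin (4 * g), n * n := sum_le_sum fun c _ => by
            have h4 := h (fun u => f (Sum.inl u) c.1) (fun v => f (Sum.inr v) c.2)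
            rw [Nat.card_eq_fintype_card, Fintype.card_subtype] at h4
            exact h4
        _ = _ := by
            rw [sum_const, card_univ, Fintype.card_prod, Fintype.card_fin, smul_eq_mul]
    refine Nat.le_of_mul_le_mul_left (c := 16 * g ^ 2) ?_ (by positivity)
    calc 16 * g ^ 2 * (2 * g * J3.card) = 32 * g ^ 3 * J3.card := by ring
      _ ≤ 32 * g ^ 3 * T.card := Nat.mul_le_mul_left _ h1
      _ ≤ _ := h2
      _ = _ := by ring
  have hfin : g * J.card ≤ n * n := by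
    have h1 : 4 * g * J.card ≤ 4 * g * (J1.card + J2.card + J3.card) :=
      Nat.mul_le_mul_left _ hJJ
    have h2 : 4 * g * (J1.card + J2.card + J3.card) =
      4 * g * J1.card + 4 * g * J2.card + 2 * (2 * g * J3.card) := by ring
    have h3 : 4 * g * J.card = 4 * (g * J.card) := by ring
    omega
  have hfin2 : n * (2 * n) ≤ cut (lift x) S + 2 * J.card := by
    have h1 : n * (2 * n) = n * A.card + n * B.card := by rw [← hAB]; ring
    omega
  rw [hS]
  have h1 : g * (n * (2 * n)) ≤ g * cut (lift x) S + 2 * (n * n) := by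
    calc g * (n * (2 * n)) ≤ g * (cut (lift x) S + 2 * J.card) := Nat.mul_le_mul_left _ hfin2
      _ = g * cut (lift x) S + 2 * (g * J.card) := by ring
      _ ≤ _ := Nat.add_le_add_left (Nat.mul_le_mul_left _ hfin) _
  obtain ⟨g', rfl⟩ : ∃ g', g = g' + 1 := ⟨g - 1, by omega⟩
  rw [Nat.add_sub_cancel]
  have h2 : (g' + 1) * (n * (2 * n)) = g' * (n * (2 * n)) + 2 * (n * n) := by ring
  omega

/-- The permutation given by a map with fibers of at most one element. -/
noncomputable def toPerm (ω : Mp q q 1) : Equiv.Perm (Fin q) :=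
  Equiv.ofBijective ω.1 (Finite.injective_iff_bijective.1 fun i j hij => by
    have h1 := ω.2 (ω.1 i)
    rw [Finite.card_le_one_iff_subsingleton] at h1
    exact congrArg Subtype.val (h1.elim ⟨i, rfl⟩ ⟨j, hij.symm⟩))

theorem toPerm_apply (ω : Mp q q 1) (i : Fin q) : toPerm ω i = ω.1 i := rfl

/-- The lower bound. -/
theorem main_sse {g : ℕ} (hg : 1 ≤ g) (hq : 2 ^ 97 * g ^ 24 ≤ q) (hn : 576 * g ^ 3 ≤ n)
    (μ : ℕ) (R : Type) [Fintype R] [Nonempty R] (I : R → Type) [∀ ρ, Fintype (I ρ)]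
    (G : ∀ ρ, I ρ → Gate (Fin n × Fin n) (Equiv.Perm (Fin q)) (I ρ)) (r : ∀ ρ, I ρ)
    (hdec : ∀ ρ, Decomposable (G ρ))
    (hno : ∀ ρ x, AllExpand g (lift x) n (2 * n) → ¬ Acc (G ρ) x (r ρ))
    (hyes : ∀ x, SomeClosed (lift x) (2 * n) →
      Nat.card R ≤ 2 ^ μ * Nat.card {ρ // Acc (G ρ) x (r ρ)}) :
    ∃ ρ, q ^ n ≤ (2 ^ μ * Fintype.card (I ρ)) ^ (2 ^ 45 * g ^ 12) := by
  have hg3 : 1 ≤ 32 * g ^ 3 := by
    have := Nat.one_le_pow 3 g hg
    omega
  have hq1 : 1 ≤ q := le_trans (Nat.mul_pos (by norm_num) (Nat.pow_pos hg)) hq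
  obtain ⟨h1, h2, h3, h4⟩ := conditions (g := 32 * g ^ 3) (m := 1) (q := q) hg3 le_rfl (by
    calc 2 ^ 57 * 1 * (32 * g ^ 3) ^ 8 = 2 ^ 97 * g ^ 24 := by ring
      _ ≤ q := hq)
  rw [one_mul] at h2 h3
  obtain ⟨ρ, hρ⟩ := gen_dnnf (g := 32 * g ^ 3) (a := q) (b := q) (d := 1) (κ := q - 1) hg3
    (by calc 18 * (32 * g ^ 3) = 576 * g ^ 3 := by ring
          _ ≤ n := hn)
    (by rw [Nat.sub_self, mul_zero]; exact Nat.zero_le _) le_rfl
    le_rfl (Nat.sub_le _ _) h1 h2 h3 (by rw [one_mul]) μ R I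
    (fun ρ i => (G ρ i).remap toPerm) r (fun ρ => remap_decomposable (hdec ρ))
    (fun ρ x hx hacc => hno ρ (fun e => toPerm (x e)) (allExpand_of hg hq1 hx)
      (remap_acc.1 hacc))
    (fun x hx => by
      have h5 := hyes (fun e => toPerm (x e)) (someClosed_of hx)
      refine h5.trans (Nat.mul_le_mul_left _ (le_of_eq ?_))
      exact Nat.card_congr (Equiv.subtypeEquivRight fun ρ => remap_acc.symm))
  refine ⟨ρ, ?_⟩
  calc q ^ n ≤ (2 * (q - 1)) ^ n := Nat.pow_le_pow_left h4 _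
    _ = (q - 1) ^ n * 2 ^ n := by rw [mul_pow, mul_comm]
    _ ≤ (q - 1) ^ n * 4 ^ n := Nat.mul_le_mul_left _ (Nat.pow_le_pow_left (by norm_num) _)
    _ ≤ _ := hρ
    _ = _ := by
      congr 1
      ring

/-- The upper bound. -/
theorem upper_sse (n q : ℕ) :
    ∃ (I : Type) (_ : Fintype I) (G : I → Gate (Fin n × Fin n) (Equiv.Perm (Fin q)) I) (r : I),
      Decomposable G ∧ Fintype.card I = q ^ n * q ^ n * (2 * (n * n) + 1) + 1 ∧
        ∀ x, Acc G x r ↔ SomeClosed (lift x) (2 * n) := by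
  classical
  refine ⟨UI (Fin n × Fin n) (Lab n q q), inferInstance,
    ub (fun β e ω => ω (β (Sum.inl e.1)) = β (Sum.inr e.2)), none, ub_decomposable _, ?_,
    fun x => ?_⟩
  · rw [card_ui, card_lab, Fintype.card_prod, Fintype.card_fin]
  · rw [ub_acc]
    constructor
    · rintro ⟨β, hβ⟩
      exact someClosed_of ⟨fun u => β (Sum.inl u), fun v => β (Sum.inr v), hβ⟩
    · intro h
      obtain ⟨LA, LB, h⟩ := of_someClosed h
      exact ⟨fun v => match v with
        | Sum.inl u => LA u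
        | Sum.inr u => LB u, h⟩

end Pool.Agent.U20.DG
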