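import Mathlib.SetTheory.Cardinal.Finite
import Mathlib.Data.Fintype.Pi

/-!
# Games on complete bipartite graphs whose constraints are maps with small fibers
-/

set_option autoImplicit false

namespace Pool.Agent.U20.DG

/-- The maps of `a` labels to `b` labels for which every label has at most `d` preimages. -/
def Mp (a b d : ℕ) : Type := {f : Fin a → Fin b // ∀ c, Nat.card {i // f i = c} ≤ d}

/-- The game `x` has a constraint map for each pair `e` of a vertex with `a` labels and a vertex with
`b` labels. The labeling `LA`, `LB` satisfies `e`. -/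
def Satd {n a b d : ℕ} (x : Fin n × Fin n → Mp a b d) (LA : Fin n → Fin a) (LB : Fin n → Fin b)
    (e : Fin n × Fin n) : Prop :=
  (x e).1 (LA e.1) = LB e.2

/-- The game has value 1. -/
def ValueOne {n a b d : ℕ} (x : Fin n × Fin n → Mp a b d) : Prop :=
  ∃ (LA : Fin n → Fin a) (LB : Fin n → Fin b), ∀ e, Satd x LA LB e

/-- The game has value at most `1 / g`. -/
def ValueLe {n a b d : ℕ} (g : ℕ) (x : Fin n × Fin n → Mp a b d) : Prop :=
  ∀ (LA : Fin n → Fin a) (LB : Fin n → Fin b), g * Nat.card {e // Satd x LA LB e} ≤ n * n

end Pool.Agent.U20.DG
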