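import Pool.Agent.U20.DG.Games

/-!
# Few mixtures have large value
-/

set_option autoImplicit false

open Finset

namespace Pool.Agent.U20.DG

open Pool.Agent.TH700.PA (mixp prod_ite_pow choose_mul_pow_le)

variable {n a b d t κ : ℕ}

/-- Most mixtures have small value. -/
theorem few_bad {g y : ℕ} (hg : 1 ≤ g) (hn : 18 * g ≤ n) (hy : 16 * g * y ≤ n)
    (hκa : κ * (d - 1) ≤ a - 1) (hκb : κ ≤ b - 1) (hd : 1 ≤ d) (hκ : κ ≤ a) (hκ2 : 1024 * g ^ 2 ≤ κ)
    (hab : a * b ≤ κ ^ 3) (hH : 8 * (2 * t) ^ 4 * (a * b) ≤ κ ^ 3)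
    (p : Fin n × Fin n → Fin t) (hb : ∀ j, (univ.filter (fun e => p e = j)).card ≤ 2 * y ^ 2) :
    ∃ B : Finset (Fin t → Pat n a b d), (∀ P, ¬ ValueLe g (mixp p gm P) → P ∈ B) ∧
      B.card * (κ ^ n * 4 ^ n) ≤ Fintype.card (Pat n a b d) ^ t := by
  classical
  have hn1 : 1 ≤ n := by omega
  have hg2 : 1 ≤ g ^ 2 := Nat.one_le_pow _ _ hg
  have hκ1 : 1 ≤ κ := by omega
  have hκb' : κ ≤ b := by omega
  obtain ⟨s, hs⟩ : ∃ s, s = n * n / (2 * g) := ⟨_, rfl⟩
  obtain ⟨C, hC⟩ : ∃ C, C = Fintype.card (Pat n a b d) ^ t := ⟨_, rfl⟩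
  rw [← hC]
  let X1 : Lab n a b → Finset (Fin t → Pat n a b d) := fun β =>
    (powersetCard (4 * n) (univ : Finset (Fin t × Vx n))).biUnion (fun S =>
      univ.filter (fun P : Fin t → Pat n a b d => ∀ s ∈ S, (P s.1).1 s.2 = β s.2))
  let X2 : Lab n a b → Finset (Fin t → Pat n a b d) := fun β =>
    (powersetCard s (univ : Finset (Fin n × Fin n))).biUnion (fun S =>
      univ.filter (fun P : Fin t → Pat n a b d => ∀ e ∈ S, Ac p P β e))
  refine ⟨univ.biUnion (fun β : Lab n a b => X1 β ∪ X2 β), fun P hval => ?_, ?_⟩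
  · unfold ValueLe at hval
    push Not at hval
    obtain ⟨LA, LB, hlt⟩ := hval
    rw [mem_biUnion]
    obtain ⟨β, hβ⟩ : ∃ β : Lab n a b, β = fun v => match v with
      | Sum.inl u => LA u
      | Sum.inr u => LB u := ⟨_, rfl⟩
    refine ⟨β, mem_univ _, ?_⟩
    have h1 : Nat.card {e // Satd (mixp p gm P) LA LB e} ≤
        (univ.filter (fun e => Ag p P β e)).card + (univ.filter (fun e => Ac p P β e)).card := by
      rw [Nat.card_eq_fintype_card, Fintype.card_subtype]
      refine le_trans (card_le_card fun e he => ?_) (card_union_le _ _)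
      rw [mem_union, mem_filter, mem_filter]
      have h2 := (mem_filter.1 he).2
      have h3 : Satd (mixp p gm P) (fun u => β (Sum.inl u)) (fun v => β (Sum.inr v)) e := by
        rw [hβ]
        exact h2
      exact (satd_cases h3).imp (fun h => ⟨mem_univ _, h⟩) fun h => ⟨mem_univ _, h⟩
    obtain ⟨A, hA⟩ : ∃ A, A = (univ.filter (fun e => Ag p P β e)).card := ⟨_, rfl⟩
    obtain ⟨Z, hZ⟩ : ∃ Z, Z = (univ.filter (fun e => Ac p P β e)).card := ⟨_, rfl⟩
    have h2 := card_ag p hb P β
    rw [← hA, ← hZ] at h1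
    rw [← hA] at h2
    have h3 : n * n < g * (A + Z) := lt_of_lt_of_le hlt (Nat.mul_le_mul_left _ h1)
    rw [mem_union]
    rcases Nat.lt_or_ge (n * n) (2 * g * A) with h4 | h4
    · left
      have h5 : 4 * n ≤ (Co P β).card := by
        by_contra hcon
        rw [not_le] at hcon
        obtain ⟨k, hk⟩ : ∃ k, k = (Co P β).card := ⟨_, rfl⟩
        rw [← hk] at hcon h2
        have h6 : 2 * g * A ≤ 2 * g * (2 * y * k) := Nat.mul_le_mul_left _ h2
        have h7 : 4 * (n * n) < 4 * (2 * g * (2 * y * k)) := by omega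
        have h8 : 4 * (2 * g * (2 * y * k)) = (16 * g * y) * k := by ring
        have h9 : (16 * g * y) * k ≤ n * (4 * n) := Nat.mul_le_mul hy hcon.le
        rw [h8] at h7
        have h10 : n * (4 * n) = 4 * (n * n) := by ring
        omega
      obtain ⟨S, hS, hSc⟩ := exists_subset_card_eq h5
      show P ∈ X1 β
      rw [mem_biUnion]
      refine ⟨S, mem_powersetCard.2 ⟨subset_univ _, hSc⟩, mem_filter.2 ⟨mem_univ _, ?_⟩⟩
      intro r hr
      exact (mem_filter.1 (hS hr)).2
    · right
      have h5 : s ≤ (univ.filter (fun e => Ac p P β e)).card := by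
        rw [← hZ, hs]
        refine Nat.div_le_of_le_mul ?_
        have h6 : g * (A + Z) = g * A + g * Z := by ring
        have h7 : 2 * g * A = 2 * (g * A) := by ring
        have h8 : 2 * g * Z = 2 * (g * Z) := by ring
        rw [h8]
        omega
      obtain ⟨S, hS, hSc⟩ := exists_subset_card_eq h5
      show P ∈ X2 β
      rw [mem_biUnion]
      refine ⟨S, mem_powersetCard.2 ⟨subset_univ _, hSc⟩, mem_filter.2 ⟨mem_univ _, ?_⟩⟩
      intro r hr
      exact (mem_filter.1 (hS hr)).2
  · obtain ⟨G, hG⟩ : ∃ G, G = a ^ n * b ^ n * (κ ^ n * 4 ^ n * 2) := ⟨_, rfl⟩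
    have h2n : 2 ≤ 2 ^ n := by
      calc 2 = 2 ^ 1 := (pow_one 2).symm
        _ ≤ 2 ^ n := Nat.pow_le_pow_right (by norm_num) hn1
    have hX1 : ∀ β, (X1 β).card * G ≤ C := by
      intro β
      have h1 : (X1 β).card * κ ^ (4 * n) ≤ (2 * t) ^ (4 * n) * C := by
        calc (X1 β).card * κ ^ (4 * n) ≤
            (∑ S ∈ powersetCard (4 * n) (univ : Finset (Fin t × Vx n)),
              (univ.filter (fun P : Fin t → Pat n a b d =>
                ∀ s ∈ S, (P s.1).1 s.2 = β s.2)).card) * κ ^ (4 * n) :=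
              Nat.mul_le_mul_right _ card_biUnion_le
          _ = ∑ S ∈ powersetCard (4 * n) (univ : Finset (Fin t × Vx n)),
              (univ.filter (fun P : Fin t → Pat n a b d =>
                ∀ s ∈ S, (P s.1).1 s.2 = β s.2)).card * κ ^ (4 * n) := by rw [sum_mul]
          _ ≤ ∑ _S ∈ powersetCard (4 * n) (univ : Finset (Fin t × Vx n)), C := by
              refine sum_le_sum fun S hS => ?_
              have h2 := card_coinc (d := d) hκ hκb' β S
              rw [(mem_powersetCard.1 hS).2, ← hC] at h2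
              exact h2
          _ = (powersetCard (4 * n) (univ : Finset (Fin t × Vx n))).card * C := by
              rw [sum_const, smul_eq_mul]
          _ ≤ _ := by
              refine Nat.mul_le_mul_right _ ?_
              rw [card_powersetCard, card_univ, Fintype.card_prod, Fintype.card_sum,
                Fintype.card_fin, Fintype.card_fin]
              refine Nat.le_of_mul_le_mul_right (c := (4 * n) ^ (4 * n)) ?_
                (Nat.pow_pos (by omega))
              refine (choose_mul_pow_le _ _).trans (le_of_eq ?_)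
              rw [← mul_pow]
              congr 1
              ring
      have h2 : (2 * t) ^ (4 * n) * G ≤ κ ^ (4 * n) := by
        calc (2 * t) ^ (4 * n) * G ≤
              (2 * t) ^ (4 * n) * (a ^ n * b ^ n * (κ ^ n * 4 ^ n * 2 ^ n)) := by
              rw [hG]
              exact Nat.mul_le_mul_left _ (Nat.mul_le_mul_left _ (Nat.mul_le_mul_left _ h2n))
          _ = (8 * (2 * t) ^ 4 * (a * b)) ^ n * κ ^ n := by
              rw [mul_pow (8 * (2 * t) ^ 4), mul_pow 8, mul_pow a b, ← pow_mul (2 * t) 4 n,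
                show (8 : ℕ) ^ n = 4 ^ n * 2 ^ n by rw [← mul_pow]; norm_num]
              ring
          _ ≤ (κ ^ 3) ^ n * κ ^ n := Nat.mul_le_mul_right _ (Nat.pow_le_pow_left hH _)
          _ = κ ^ (4 * n) := by rw [← pow_mul, ← pow_add]; congr 1; ring
      refine Nat.le_of_mul_le_mul_left (c := κ ^ (4 * n)) ?_ (Nat.pow_pos (by omega))
      calc κ ^ (4 * n) * ((X1 β).card * G) = (X1 β).card * κ ^ (4 * n) * G := by ring
        _ ≤ (2 * t) ^ (4 * n) * C * G := Nat.mul_le_mul_right _ h1
        _ = (2 * t) ^ (4 * n) * G * C := by ring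
        _ ≤ _ := Nat.mul_le_mul_right _ h2
    -- the exponent
    have h3 : n * n < 2 * g * (s + 1) := by
      rw [hs]
      exact Nat.lt_mul_div_succ _ (by omega)
    have hgn : 18 * (g * n) ≤ n * n := by
      calc 18 * (g * n) = (18 * g) * n := by ring
        _ ≤ n * n := Nat.mul_le_mul_right _ hn
    have h4 : 2 * g * (s + 1) = 2 * (g * s) + 2 * g := by ring
    have h5 : g ≤ g * n := Nat.le_mul_of_pos_right _ hn1
    have h6 : 8 * n ≤ s := by
      by_contra hcon
      rw [not_le] at hcon
      have h7 : g * s ≤ g * (8 * n) := Nat.mul_le_mul_left _ hcon.le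
      have h8 : g * (8 * n) = 8 * (g * n) := by ring
      omega
    obtain ⟨r, hr⟩ := Nat.exists_eq_add_of_le (show 4 * n ≤ s by omega)
    have h8 : 4 * n ≤ r := by omega
    have hs1 : 1 ≤ s := by omega
    have h9 : n * n ≤ 4 * g * s := by
      have h10 : g ≤ g * s := Nat.le_mul_of_pos_right _ hs1
      have h11 : 4 * g * s = 4 * (g * s) := by ring
      omega
    have hX2 : ∀ β, (X2 β).card * G ≤ C := by
      intro β
      have h1 : (X2 β).card * κ ^ s ≤ (16 * g) ^ s * C := by
        calc (X2 β).card * κ ^ s ≤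
            (∑ S ∈ powersetCard s (univ : Finset (Fin n × Fin n)),
              (univ.filter (fun P : Fin t → Pat n a b d => ∀ e ∈ S, Ac p P β e)).card) *
                κ ^ s := Nat.mul_le_mul_right _ card_biUnion_le
          _ = ∑ S ∈ powersetCard s (univ : Finset (Fin n × Fin n)),
              (univ.filter (fun P : Fin t → Pat n a b d => ∀ e ∈ S, Ac p P β e)).card *
                κ ^ s := by rw [sum_mul]
          _ ≤ ∑ _S ∈ powersetCard s (univ : Finset (Fin n × Fin n)), C := by
              refine sum_le_sum fun S hS => ?_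
              have h2 := card_accid hκa hκb hd p β S
              rw [(mem_powersetCard.1 hS).2, ← hC] at h2
              exact h2
          _ = (powersetCard s (univ : Finset (Fin n × Fin n))).card * C := by
              rw [sum_const, smul_eq_mul]
          _ ≤ _ := by
              refine Nat.mul_le_mul_right _ ?_
              rw [card_powersetCard, card_univ, Fintype.card_prod, Fintype.card_fin]
              refine Nat.le_of_mul_le_mul_right (c := s ^ s) ?_ (Nat.pow_pos hs1)
              refine (choose_mul_pow_le _ _).trans ?_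
              rw [← mul_pow]
              refine Nat.pow_le_pow_left ?_ _
              calc 4 * (n * n) ≤ 4 * (4 * g * s) := Nat.mul_le_mul_left _ h9
                _ = _ := by ring
      have h2 : (16 * g) ^ s * G ≤ κ ^ s := by
        have hQ1 : (16 * g) ^ 2 * 4 ≤ κ := by
          calc (16 * g) ^ 2 * 4 = 1024 * g ^ 2 := by ring
            _ ≤ κ := hκ2
        have h10 : (16 * g) ^ s ≤ (16 * g) ^ (2 * r) := Nat.pow_le_pow_right (by omega) (by omega)
        have h11 : 4 ^ n * 2 ≤ 2 ^ (2 * r) := by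
          calc 4 ^ n * 2 = 2 ^ (2 * n + 1) := by rw [pow_succ, pow_mul]; norm_num
            _ ≤ _ := Nat.pow_le_pow_right (by norm_num) (by omega)
        have h12 : a ^ n * b ^ n * κ ^ n ≤ κ ^ (4 * n) := by
          calc a ^ n * b ^ n * κ ^ n = (a * b) ^ n * κ ^ n := by rw [mul_pow]
            _ ≤ (κ ^ 3) ^ n * κ ^ n := Nat.mul_le_mul_right _ (Nat.pow_le_pow_left hab _)
            _ = κ ^ (4 * n) := by rw [← pow_mul, ← pow_add]; congr 1; ring
        calc (16 * g) ^ s * G = (16 * g) ^ s * (4 ^ n * 2) * (a ^ n * b ^ n * κ ^ n) := by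
              rw [hG]; ring
          _ ≤ (16 * g) ^ (2 * r) * 2 ^ (2 * r) * κ ^ (4 * n) :=
              Nat.mul_le_mul (Nat.mul_le_mul h10 h11) h12
          _ = ((16 * g) ^ 2 * 4) ^ r * κ ^ (4 * n) := by
              rw [mul_pow ((16 * g) ^ 2) 4 r, ← pow_mul, pow_mul 2 2 r]
              norm_num
          _ ≤ κ ^ r * κ ^ (4 * n) := Nat.mul_le_mul_right _ (Nat.pow_le_pow_left hQ1 _)
          _ = κ ^ s := by rw [← pow_add, hr, add_comm]
      refine Nat.le_of_mul_le_mul_left (c := κ ^ s) ?_ (Nat.pow_pos (by omega))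
      calc κ ^ s * ((X2 β).card * G) = (X2 β).card * κ ^ s * G := by ring
        _ ≤ (16 * g) ^ s * C * G := Nat.mul_le_mul_right _ h1
        _ = (16 * g) ^ s * G * C := by ring
        _ ≤ _ := Nat.mul_le_mul_right _ h2
    have hqn : 0 < a ^ n * b ^ n :=
      Nat.mul_pos (Nat.pow_pos (by omega)) (Nat.pow_pos (by omega))
    have h3 : (univ.biUnion (fun β : Lab n a b => X1 β ∪ X2 β)).card * G ≤
        a ^ n * b ^ n * (2 * C) := by
      calc (univ.biUnion (fun β : Lab n a b => X1 β ∪ X2 β)).card * G ≤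
          (∑ β : Lab n a b, (X1 β ∪ X2 β).card) * G := Nat.mul_le_mul_right _ card_biUnion_le
        _ = ∑ β : Lab n a b, (X1 β ∪ X2 β).card * G := by rw [sum_mul]
        _ ≤ ∑ _β : Lab n a b, 2 * C := by
            refine sum_le_sum fun β _ => ?_
            have e1 : (X1 β ∪ X2 β).card * G ≤ ((X1 β).card + (X2 β).card) * G :=
              Nat.mul_le_mul_right _ (card_union_le _ _)
            rw [add_mul] at e1
            have e2 := hX1 β
            have e3 := hX2 β
            omega
        _ = _ := by rw [sum_const, card_univ, card_lab, smul_eq_mul]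
    refine Nat.le_of_mul_le_mul_left (c := a ^ n * b ^ n * 2) ?_ (Nat.mul_pos hqn (by norm_num))
    calc a ^ n * b ^ n * 2 * ((univ.biUnion (fun β : Lab n a b => X1 β ∪ X2 β)).card *
          (κ ^ n * 4 ^ n)) = (univ.biUnion (fun β : Lab n a b => X1 β ∪ X2 β)).card * G := by
          rw [hG]; ring
      _ ≤ a ^ n * b ^ n * (2 * C) := h3
      _ = _ := by ring

end Pool.Agent.U20.DG
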