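import Pool.Agent.U20.DG.Few
import Pool.Agent.U20.DN.Engine
import Pool.Agent.U20.DN.Upper

/-!
# Games with small fibers: decomposable circuits and tensor networks
-/

set_option autoImplicit false

open Finset

namespace Pool.Agent.U20.DG

open Pool.Agent.TH700.PA (mixp Net rand_density exists_product)
open Pool.Agent.U20.DN

variable {n a b d κ : ℕ}

theorem exists_y {g n : ℕ} (hg : 1 ≤ g) (hn : 18 * g ≤ n) : ∃ y, 1 ≤ y ∧ 16 * g * y ≤ n ∧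
    3 * Fintype.card (Fin n × Fin n) + 2 * y ^ 2 ≤ y ^ 2 * (3072 * g ^ 2 + 2) := by
  refine ⟨n / (16 * g), Nat.div_pos (by omega) (by omega), Nat.mul_div_le n _, ?_⟩
  obtain ⟨y, hy⟩ : ∃ y, y = n / (16 * g) := ⟨_, rfl⟩
  have hy1 : 1 ≤ y := by
    rw [hy]
    exact Nat.div_pos (by omega) (by omega)
  have hny : n < 16 * g * (y + 1) := by
    rw [hy]
    exact Nat.lt_mul_div_succ n (by omega)
  rw [← hy, Fintype.card_prod, Fintype.card_fin]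
  have e1 : n ≤ 32 * g * y := by nlinarith
  have e2 : n * n ≤ (32 * g * y) * (32 * g * y) := Nat.mul_le_mul e1 e1
  calc 3 * (n * n) + 2 * y ^ 2 ≤ 3 * ((32 * g * y) * (32 * g * y)) + 2 * y ^ 2 :=
        Nat.add_le_add_right (Nat.mul_le_mul_left _ e2) _
    _ = _ := by ring

theorem nonempty_mp (hd : 1 ≤ d) (_hb : 1 ≤ b) (hab : a ≤ d * b) : Nonempty (Mp a b d) := by
  refine ⟨⟨fun i => ⟨i.val / d, Nat.div_lt_of_lt_mul (lt_of_lt_of_le i.2 hab)⟩, fun c => ?_⟩⟩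
  rw [Nat.card_eq_fintype_card, Fintype.card_subtype]
  have h0 : (Ico (d * c.val) (d * c.val + d)).card = d := by
    rw [Nat.card_Ico, Nat.add_sub_cancel_left]
  refine le_trans (card_le_card_of_injOn (t := Ico (d * c.val) (d * c.val + d))
    (fun i => i.val) (fun i hi => ?_) (fun i _ j _ hij => Fin.ext hij)) h0.le
  rw [mem_coe, mem_filter] at hi
  have h2 : i.val / d = c.val := congrArg Fin.val hi.2
  rw [mem_coe, mem_Ico]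
  have h3 := Nat.mul_div_le i.val d
  have h4 := Nat.lt_mul_div_succ i.val (show 0 < d by omega)
  rw [h2] at h3 h4
  rw [Nat.mul_succ] at h4
  exact ⟨h3, h4⟩

theorem sub_mul_sub {d q : ℕ} (hd : 1 ≤ d) (hq : 1 ≤ q) : (q - 1) * (d - 1) ≤ d * q - 1 := by
  obtain ⟨d', rfl⟩ : ∃ d', d = d' + 1 := ⟨d - 1, by omega⟩
  obtain ⟨q', rfl⟩ : ∃ q', q = q' + 1 := ⟨q - 1, by omega⟩
  have : (d' + 1) * (q' + 1) = q' * d' + d' + q' + 1 := by ring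
  rw [this]
  simp only [Nat.add_sub_cancel]
  omega

/-- Decomposable circuits. -/
theorem gen_dnnf {g : ℕ} (hg : 1 ≤ g) (hn : 18 * g ≤ n) (hκa : κ * (d - 1) ≤ a - 1)
    (hκb : κ ≤ b - 1) (hd : 1 ≤ d) (hκ : κ ≤ a) (hκ2 : 1024 * g ^ 2 ≤ κ)
    (hab : a * b ≤ κ ^ 3) (hH : 8 * (2 * (3072 * g ^ 2 + 2)) ^ 4 * (a * b) ≤ κ ^ 3)
    (hadb : a ≤ d * b)
    (μ : ℕ) (R : Type) [Fintype R] [Nonempty R] (I : R → Type) [∀ ρ, Fintype (I ρ)]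
    (G : ∀ ρ, I ρ → Gate (Fin n × Fin n) (Mp a b d) (I ρ)) (r : ∀ ρ, I ρ)
    (hdec : ∀ ρ, Decomposable (G ρ))
    (hno : ∀ ρ x, ValueLe g x → ¬ Acc (G ρ) x (r ρ))
    (hyes : ∀ x, ValueOne x → Nat.card R ≤ 2 ^ μ * Nat.card {ρ // Acc (G ρ) x (r ρ)}) :
    ∃ ρ, κ ^ n * 4 ^ n ≤ (2 ^ μ * Fintype.card (I ρ)) ^ (2 ^ 25 * g ^ 4) := by
  classical
  obtain ⟨y, hy1, hyn, hE⟩ := exists_y hg hn
  obtain ⟨t, ht⟩ : ∃ t, t = 3072 * g ^ 2 + 2 := ⟨_, rfl⟩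
  rw [← ht] at hE hH
  have hg2 : 1 ≤ g ^ 2 := Nat.one_le_pow _ _ hg
  have ha1 : 1 ≤ a := by omega
  have hb1 : 1 ≤ b := by omega
  have : Nonempty (Fin a) := ⟨⟨0, ha1⟩⟩
  have : Nonempty (Fin b) := ⟨⟨0, hb1⟩⟩
  have : Nonempty (Mp a b d) := nonempty_mp hd hb1 hadb
  have : Nonempty (Lab n a b) := ⟨fun v => match v with
    | Sum.inl _ => ⟨0, ha1⟩
    | Sum.inr _ => ⟨0, hb1⟩⟩
  obtain ⟨ρ, hρ⟩ := rand_dnnf μ R I G r hdec (θ := y ^ 2) (t := t)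
    (Nat.one_le_pow _ _ hy1) hE (U := Pat n a b d) gm
    (univ : Finset (Pat n a b d)) (η := 0) (by rw [card_univ, pow_zero, one_mul])
    (fun P _ => hyes _ (gm_valueOne P)) (N := κ ^ n * 4 ^ n) (fun ρ p hp => by
        obtain ⟨B, hB1, hB2⟩ := few_bad (a := a) (b := b) hg hn hyn hκa hκb hd hκ hκ2 hab hH p hp
        exact ⟨B, fun P hP => hB1 P fun hv => hno ρ _ hv hP, hB2⟩)
  refine ⟨ρ, ?_⟩
  obtain ⟨s, hs⟩ : ∃ s, s = Fintype.card (I ρ) := ⟨_, rfl⟩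
  have hs1 : 1 ≤ s := by
    rw [hs]
    exact Fintype.card_pos_iff.2 ⟨r ρ⟩
  rw [← hs, add_zero] at hρ
  rw [← hs]
  have ht1 : 1 ≤ t := by omega
  have hX1 : 1 ≤ 2 ^ μ * s := Nat.mul_pos (Nat.pow_pos (by norm_num)) hs1
  have e1 : 2 ^ μ * s ^ (2 * t) ≤ (2 ^ μ * s) ^ (2 * t) := by
    rw [mul_pow]
    exact Nat.mul_le_mul_right _ (Nat.le_self_pow (by omega) _)
  calc κ ^ n * 4 ^ n ≤ ((2 ^ μ * s) ^ (2 * t)) ^ t := hρ.trans (Nat.pow_le_pow_left e1 _)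
    _ = (2 ^ μ * s) ^ (2 * t * t) := (pow_mul _ _ _).symm
    _ ≤ _ := Nat.pow_le_pow_right hX1 (by
        have e2 : t ≤ 3074 * g ^ 2 := by omega
        calc 2 * t * t ≤ 2 * (3074 * g ^ 2) * (3074 * g ^ 2) :=
              Nat.mul_le_mul (Nat.mul_le_mul_left _ e2) e2
          _ = 18898952 * g ^ 4 := by ring
          _ ≤ _ := Nat.mul_le_mul_right _ (by norm_num))

/-- Tensor networks. -/
theorem gen_net {g : ℕ} (hg : 1 ≤ g) (hn : 2 ^ 24 * g ^ 4 ≤ n) (hκa : κ * (d - 1) ≤ a - 1)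
    (hκb : κ ≤ b - 1) (hd : 1 ≤ d) (hκ : κ ≤ a) (hκ2 : 1024 * g ^ 2 ≤ κ)
    (hab : a * b ≤ κ ^ 3) (hH : 8 * (2 * (3072 * g ^ 2 + 2)) ^ 4 * (a * b) ≤ κ ^ 3)
    (hadb : a ≤ d * b)
    (μ : ℕ) (R : Type) [Fintype R] [Nonempty R] (K W : R → Type) [∀ ρ, Field (K ρ)]
    [∀ ρ, Fintype (W ρ)] (T : ∀ ρ, Net (K ρ) (Fin n × Fin n) (Mp a b d) (W ρ))
    (c : ∀ ρ, W ρ → K ρ)
    (h1 : ∀ ρ e, (T ρ).reads e ≤ 1)
    (hno : ∀ ρ x, ValueLe g x → (T ρ).value (c ρ) x = 0)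
    (hyes : ∀ x, ValueOne x →
      Nat.card R ≤ 2 ^ μ * Nat.card {ρ // (T ρ).value (c ρ) x ≠ 0}) :
    ∃ ρ, κ ^ n * 2 ^ n ≤ (2 ^ μ * Fintype.card (W ρ)) ^ (2 ^ 14 * g ^ 2) := by
  classical
  have hg4 : g ≤ g ^ 4 := Nat.le_self_pow (by norm_num) g
  have hn18 : 18 * g ≤ n := by omega
  obtain ⟨y, hy1, hyn, hE⟩ := exists_y hg hn18
  obtain ⟨t, ht⟩ : ∃ t, t = 3072 * g ^ 2 + 2 := ⟨_, rfl⟩
  rw [← ht] at hE hH
  have hg2 : 1 ≤ g ^ 2 := Nat.one_le_pow _ _ hg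
  have ha1 : 1 ≤ a := by omega
  have hb1 : 1 ≤ b := by omega
  have : Nonempty (Fin a) := ⟨⟨0, ha1⟩⟩
  have : Nonempty (Fin b) := ⟨⟨0, hb1⟩⟩
  have : Nonempty (Mp a b d) := nonempty_mp hd hb1 hadb
  have : Nonempty (Lab n a b) := ⟨fun v => match v with
    | Sum.inl _ => ⟨0, ha1⟩
    | Sum.inr _ => ⟨0, hb1⟩⟩
  obtain ⟨ρ, hρ, hw1⟩ := rand_density μ R K W T c h1 (θ := y ^ 2) (t := t)
    (Nat.one_le_pow _ _ hy1) (by omega) (by omega) (U := Pat n a b d) gm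
    (univ : Finset (Pat n a b d)) (η := 0) (by rw [card_univ, pow_zero, one_mul])
    (fun P _ => hyes _ (gm_valueOne P)) (N := κ ^ n * 4 ^ n) (fun ρ p hp => by
        obtain ⟨B, hB1, hB2⟩ := few_bad (a := a) (b := b) hg hn18 hyn hκa hκb hd hκ hκ2 hab hH p hp
        exact ⟨B, fun P hP => hB1 P fun hv => hP (hno ρ _ hv), hB2⟩)
  refine ⟨ρ, ?_⟩
  obtain ⟨w, hw⟩ : ∃ w, w = Fintype.card (W ρ) := ⟨_, rfl⟩
  rw [← hw] at hρ hw1 ⊢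
  obtain ⟨X, hX⟩ : ∃ X, X = 2 ^ μ * w := ⟨_, rfl⟩
  have hX1 : 1 ≤ X := by
    rw [hX]
    exact Nat.mul_pos (Nat.pow_pos (by norm_num)) hw1
  rw [← hX]
  have e1 : 2 ^ (μ + 0 + 1) * (t * w ^ 3) ≤ 2 ^ t * X ^ 3 := by
    have e2 : 2 * t ≤ 2 ^ t := by
      obtain ⟨t', rfl⟩ : ∃ t', t = t' + 1 := ⟨t - 1, by omega⟩
      have := (Nat.lt_two_pow_self (n := t')).le
      rw [pow_succ]
      have h3 : t' + 1 ≤ 2 ^ t' := Nat.lt_two_pow_self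
      omega
    have e3 : 2 ^ μ ≤ (2 ^ μ) ^ 3 := Nat.le_self_pow (by norm_num) _
    calc 2 ^ (μ + 0 + 1) * (t * w ^ 3) = 2 * t * (2 ^ μ * w ^ 3) := by
          rw [add_zero, pow_succ]; ring
      _ ≤ 2 ^ t * ((2 ^ μ) ^ 3 * w ^ 3) :=
          Nat.mul_le_mul e2 (Nat.mul_le_mul_right _ e3)
      _ = _ := by rw [hX]; ring
  have e4 : κ ^ n * 4 ^ n ≤ 2 ^ (t * (t + 1)) * X ^ (3 * (t + 1)) := by
    calc κ ^ n * 4 ^ n ≤ (2 ^ t * X ^ 3) ^ (t + 1) := hρ.trans (Nat.pow_le_pow_left e1 _)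
      _ = _ := by rw [mul_pow, ← pow_mul, ← pow_mul]
  have e5 : 2 ^ (t * (t + 1)) ≤ 2 ^ n := by
    refine Nat.pow_le_pow_right (by norm_num) (le_trans ?_ hn)
    have e2 : t ≤ 3074 * g ^ 2 := by omega
    have e3 : t + 1 ≤ 3075 * g ^ 2 := by omega
    calc t * (t + 1) ≤ (3074 * g ^ 2) * (3075 * g ^ 2) := Nat.mul_le_mul e2 e3
      _ = 9452550 * g ^ 4 := by ring
      _ ≤ _ := Nat.mul_le_mul_right _ (by norm_num)
  have e6 : κ ^ n * 2 ^ n ≤ X ^ (3 * (t + 1)) := by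
    refine Nat.le_of_mul_le_mul_right (c := 2 ^ n) ?_ (by positivity)
    have e7 : κ ^ n * 2 ^ n * 2 ^ n = κ ^ n * 4 ^ n := by
      rw [show (4 : ℕ) = 2 * 2 by norm_num, mul_pow 2 2 n, mul_assoc]
    rw [e7]
    refine (e4.trans (Nat.mul_le_mul_right _ e5)).trans (le_of_eq ?_)
    ring
  exact e6.trans (Nat.pow_le_pow_right hX1 (by omega))

/-- The conditions on the numbers of labels. -/
theorem conditions {g m q : ℕ} (hg : 1 ≤ g) (hm : 1 ≤ m) (hq : 2 ^ 57 * m * g ^ 8 ≤ q) :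
    1024 * g ^ 2 ≤ q - 1 ∧ m * q * q ≤ (q - 1) ^ 3 ∧
      8 * (2 * (3072 * g ^ 2 + 2)) ^ 4 * (m * q * q) ≤ (q - 1) ^ 3 ∧ q ≤ 2 * (q - 1) := by
  have hg2 : 1 ≤ g ^ 2 := Nat.one_le_pow _ _ hg
  have h28 : g ^ 2 ≤ g ^ 8 := Nat.pow_le_pow_right hg (by norm_num)
  have h8 : g ^ 8 ≤ m * g ^ 8 := Nat.le_mul_of_pos_left _ hm
  have hq' : 2 ^ 57 * (m * g ^ 8) ≤ q := by rw [← mul_assoc]; exact hq
  obtain ⟨k, hk⟩ : ∃ k, k = q - 1 := ⟨_, rfl⟩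
  have hq2 : q ≤ 2 * (q - 1) := by omega
  rw [← hk] at hq2 ⊢
  have h1 : 1024 * g ^ 2 ≤ k := by omega
  have h3 : 8 * (2 * (3072 * g ^ 2 + 2)) ^ 4 * (m * q * q) ≤ k ^ 3 := by
    have e1 : (2 * (3072 * g ^ 2 + 2)) ^ 4 ≤ 2 ^ 51 * g ^ 8 := by
      calc (2 * (3072 * g ^ 2 + 2)) ^ 4 ≤ (6148 * g ^ 2) ^ 4 := Nat.pow_le_pow_left (by omega) 4
        _ = 6148 ^ 4 * g ^ 8 := by ring
        _ ≤ _ := Nat.mul_le_mul_right _ (by norm_num)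
    have e2 : q ^ 3 ≤ 8 * k ^ 3 := by
      calc q ^ 3 ≤ (2 * k) ^ 3 := Nat.pow_le_pow_left hq2 3
        _ = _ := by ring
    refine Nat.le_of_mul_le_mul_left (c := 8) ?_ (by norm_num)
    refine le_trans ?_ e2
    calc 8 * (8 * (2 * (3072 * g ^ 2 + 2)) ^ 4 * (m * q * q)) ≤
          8 * (8 * (2 ^ 51 * g ^ 8) * (m * q * q)) :=
          Nat.mul_le_mul_left _ (Nat.mul_le_mul_right _ (Nat.mul_le_mul_left _ e1))
      _ = (2 ^ 57 * m * g ^ 8) * (q * q) := by ring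
      _ ≤ q * (q * q) := Nat.mul_le_mul_right _ hq
      _ = q ^ 3 := by ring
  refine ⟨h1, le_trans ?_ h3, h3, hq2⟩
  exact Nat.le_mul_of_pos_left _ (by positivity)

/-- 2-to-1 games and decomposable circuits. -/
theorem two_dnnf {g q n : ℕ} (hg : 1 ≤ g) (hq : 2 ^ 57 * g ^ 8 ≤ q) (hn : 18 * g ≤ n)
    (μ : ℕ) (R : Type) [Fintype R] [Nonempty R] (I : R → Type) [∀ ρ, Fintype (I ρ)]
    (G : ∀ ρ, I ρ → Gate (Fin n × Fin n) (Mp q q 2) (I ρ)) (r : ∀ ρ, I ρ)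
    (hdec : ∀ ρ, Decomposable (G ρ))
    (hno : ∀ ρ x, ValueLe g x → ¬ Acc (G ρ) x (r ρ))
    (hyes : ∀ x, ValueOne x → Nat.card R ≤ 2 ^ μ * Nat.card {ρ // Acc (G ρ) x (r ρ)}) :
    ∃ ρ, q ^ n ≤ (2 ^ μ * Fintype.card (I ρ)) ^ (2 ^ 25 * g ^ 4) := by
  obtain ⟨h1, h2, h3, h4⟩ := conditions (m := 1) (q := q) hg le_rfl (by rw [mul_one]; exact hq)
  rw [one_mul] at h2 h3
  obtain ⟨ρ, hρ⟩ := gen_dnnf (a := q) (b := q) (d := 2) (κ := q - 1) hg hn (by omega) le_rfl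
    (by norm_num) (by omega) h1 h2 h3 (by omega) μ R I G r hdec hno hyes
  refine ⟨ρ, le_trans ?_ hρ⟩
  calc q ^ n ≤ (2 * (q - 1)) ^ n := Nat.pow_le_pow_left h4 _
    _ = (q - 1) ^ n * 2 ^ n := by rw [mul_pow, mul_comm]
    _ ≤ _ := Nat.mul_le_mul_left _ (Nat.pow_le_pow_left (by norm_num) _)

/-- d-to-1 games and tensor networks. -/
theorem dto_net {g d q n : ℕ} (hg : 1 ≤ g) (hd : 1 ≤ d) (hq : 2 ^ 57 * d * g ^ 8 ≤ q)
    (hn : 2 ^ 24 * g ^ 4 ≤ n)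
    (μ : ℕ) (R : Type) [Fintype R] [Nonempty R] (K W : R → Type) [∀ ρ, Field (K ρ)]
    [∀ ρ, Fintype (W ρ)] (T : ∀ ρ, Net (K ρ) (Fin n × Fin n) (Mp (d * q) q d) (W ρ))
    (c : ∀ ρ, W ρ → K ρ)
    (h1 : ∀ ρ e, (T ρ).reads e ≤ 1)
    (hno : ∀ ρ x, ValueLe g x → (T ρ).value (c ρ) x = 0)
    (hyes : ∀ x, ValueOne x →
      Nat.card R ≤ 2 ^ μ * Nat.card {ρ // (T ρ).value (c ρ) x ≠ 0}) :
    ∃ ρ, q ^ n ≤ (2 ^ μ * Fintype.card (W ρ)) ^ (2 ^ 14 * g ^ 2) := by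
  obtain ⟨h2, h3, h4, h5⟩ := conditions hg hd hq
  have hq1 : q ≤ d * q := Nat.le_mul_of_pos_left _ hd
  have hg2 : 1 ≤ g ^ 2 := Nat.one_le_pow _ _ hg
  have h6 : (q - 1) * (d - 1) ≤ d * q - 1 := sub_mul_sub hd (by omega)
  obtain ⟨ρ, hρ⟩ := gen_net (a := d * q) (b := q) (d := d) (κ := q - 1) hg hn h6 le_rfl hd
    (by omega) h2 h3 h4 le_rfl μ R K W T c h1 hno hyes
  refine ⟨ρ, le_trans ?_ hρ⟩
  calc q ^ n ≤ (2 * (q - 1)) ^ n := Nat.pow_le_pow_left h5 _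
    _ = _ := by rw [mul_pow, mul_comm]

/-- d-to-1 games and decomposable circuits. -/
theorem dto_dnnf {g d q n : ℕ} (hg : 1 ≤ g) (hd : 1 ≤ d) (hq : 2 ^ 57 * d * g ^ 8 ≤ q)
    (hn : 18 * g ≤ n)
    (μ : ℕ) (R : Type) [Fintype R] [Nonempty R] (I : R → Type) [∀ ρ, Fintype (I ρ)]
    (G : ∀ ρ, I ρ → Gate (Fin n × Fin n) (Mp (d * q) q d) (I ρ)) (r : ∀ ρ, I ρ)
    (hdec : ∀ ρ, Decomposable (G ρ))
    (hno : ∀ ρ x, ValueLe g x → ¬ Acc (G ρ) x (r ρ))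
    (hyes : ∀ x, ValueOne x → Nat.card R ≤ 2 ^ μ * Nat.card {ρ // Acc (G ρ) x (r ρ)}) :
    ∃ ρ, q ^ n ≤ (2 ^ μ * Fintype.card (I ρ)) ^ (2 ^ 25 * g ^ 4) := by
  obtain ⟨h2, h3, h4, h5⟩ := conditions hg hd hq
  have hq1 : q ≤ d * q := Nat.le_mul_of_pos_left _ hd
  have hg2 : 1 ≤ g ^ 2 := Nat.one_le_pow _ _ hg
  have h6 : (q - 1) * (d - 1) ≤ d * q - 1 := sub_mul_sub hd (by omega)
  obtain ⟨ρ, hρ⟩ := gen_dnnf (a := d * q) (b := q) (d := d) (κ := q - 1) hg hn h6 le_rfl hd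
    (by omega) h2 h3 h4 le_rfl μ R I G r hdec hno hyes
  refine ⟨ρ, le_trans ?_ hρ⟩
  calc q ^ n ≤ (2 * (q - 1)) ^ n := Nat.pow_le_pow_left h5 _
    _ = (q - 1) ^ n * 2 ^ n := by rw [mul_pow, mul_comm]
    _ ≤ _ := Nat.mul_le_mul_left _ (Nat.pow_le_pow_left (by norm_num) _)

/-- The upper bound for decomposable circuits. -/
theorem upper_dnnf (n a b d : ℕ) :
    ∃ (I : Type) (_ : Fintype I) (G : I → Gate (Fin n × Fin n) (Mp a b d) I) (r : I),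
      Decomposable G ∧ Fintype.card I = a ^ n * b ^ n * (2 * (n * n) + 1) + 1 ∧
        ∀ x, Acc G x r ↔ ValueOne x := by
  classical
  refine ⟨UI (Fin n × Fin n) (Lab n a b), inferInstance,
    ub (fun β e ω => ω.1 (β (Sum.inl e.1)) = β (Sum.inr e.2)), none, ub_decomposable _, ?_,
    fun x => ?_⟩
  · rw [card_ui, card_lab, Fintype.card_prod, Fintype.card_fin]
  · rw [ub_acc]
    constructor
    · rintro ⟨β, hβ⟩
      exact ⟨fun u => β (Sum.inl u), fun v => β (Sum.inr v), hβ⟩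
    · rintro ⟨LA, LB, h⟩
      exact ⟨fun v => match v with
        | Sum.inl u => LA u
        | Sum.inr u => LB u, h⟩

/-- The upper bound for tensor networks. -/
theorem upper_net {n : ℕ} (hn : 1 ≤ n) (a b d : ℕ) :
    ∃ (T : Net ℚ (Fin n × Fin n) (Mp a b d) (Lab n a b)) (c : Lab n a b → ℚ),
      T.Linear ∧ (∀ e, T.reads e = 1) ∧ T.size = 2 * (n * n) - 1 ∧
        ∀ x, T.value c x ≠ 0 ↔ ValueOne x := by
  classical
  have : Nonempty (Fin n) := ⟨⟨0, hn⟩⟩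
  obtain ⟨T, h1, h2, h3, h4⟩ := exists_product (K := ℚ)
    (fun (e : Fin n × Fin n) (ω : Mp a b d) (β : Lab n a b) =>
      if ω.1 (β (Sum.inl e.1)) = β (Sum.inr e.2) then (1 : ℚ) else 0)
  refine ⟨T, fun _ => 1, h1, h2, ?_, fun x => ?_⟩
  · rw [h3, Fintype.card_prod, Fintype.card_fin]
  · have h5 : ∀ β : Lab n a b, 0 ≤ T.eval x β ∧
        (T.eval x β ≠ 0 ↔ ∀ e, (x e).1 (β (Sum.inl e.1)) = β (Sum.inr e.2)) := by
      intro β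
      rw [h4]
      refine ⟨prod_nonneg fun e _ => by split_ifs <;> norm_num, ?_⟩
      rw [prod_ne_zero_iff]
      constructor
      · intro h e
        by_contra hcon
        exact h e (mem_univ _) (if_neg hcon)
      · intro h e _
        rw [if_pos (h e)]
        exact one_ne_zero
    unfold Net.value
    rw [Ne, sum_eq_zero_iff_of_nonneg (fun k _ => by
      rw [one_mul]
      exact (h5 k).1)]
    push Not
    constructor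
    · rintro ⟨β, -, hβ⟩
      rw [one_mul] at hβ
      exact ⟨fun u => β (Sum.inl u), fun v => β (Sum.inr v), (h5 β).2.1 hβ⟩
    · rintro ⟨LA, LB, h⟩
      refine ⟨fun v => match v with
        | Sum.inl u => LA u
        | Sum.inr u => LB u, mem_univ _, ?_⟩
      rw [one_mul]
      exact (h5 _).2.2 h

end Pool.Agent.U20.DG
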