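import Pool.Agent.U20.DG.Defs
import Mathlib.Logic.Equiv.Basic
import Mathlib.Tactic

/-!
# Counting the maps with small fibers

The argument of `Pool/Agent/TH700/PA/Maps.lean` for two sets of labels and fibers of any size.
-/

set_option autoImplicit false

open Finset

namespace Pool.Agent.U20.DG

variable {a b d κ : ℕ}

noncomputable instance : Fintype (Mp a b d) := by
  classical
  unfold Mp
  infer_instance

/-- Composition with a permutation of the values. -/
def post (σ : Equiv.Perm (Fin b)) (ω : Mp a b d) : Mp a b d :=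
  ⟨fun i => σ (ω.1 i), fun c => by
    have h1 : Nat.card {i // σ (ω.1 i) = c} = Nat.card {i // ω.1 i = σ.symm c} :=
      Nat.card_congr (Equiv.subtypeEquivRight fun i => by rw [Equiv.eq_symm_apply])
    rw [h1]
    exact ω.2 _⟩

/-- Composition with a permutation of the arguments. -/
def pre (σ : Equiv.Perm (Fin a)) (ω : Mp a b d) : Mp a b d :=
  ⟨fun i => ω.1 (σ i), fun c => by
    have h1 : Nat.card {i // ω.1 (σ i) = c} = Nat.card {i // ω.1 i = c} :=
      Nat.card_congr (σ.subtypeEquiv fun i => Iff.rfl)
    rw [h1]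
    exact ω.2 _⟩

theorem post_injective (σ : Equiv.Perm (Fin b)) :
    Function.Injective (post (a := a) (d := d) σ) := by
  intro ω ω' h
  refine Subtype.ext (funext fun i => ?_)
  have h1 := congrFun (congrArg Subtype.val h) i
  exact σ.injective h1

theorem pre_injective (σ : Equiv.Perm (Fin a)) :
    Function.Injective (pre (b := b) (d := d) σ) := by
  intro ω ω' h
  refine Subtype.ext (funext fun i => ?_)
  have h1 := congrFun (congrArg Subtype.val h) (σ.symm i)
  have h2 : ω.1 (σ (σ.symm i)) = ω'.1 (σ (σ.symm i)) := h1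
  rwa [Equiv.apply_symm_apply] at h2

/-- The two values are nearly independent. -/
theorem card_two (hκa : κ * (d - 1) ≤ a - 1) (hκb : κ ≤ b - 1) (hd : 1 ≤ d) {i i' : Fin a}
    (hii : i ≠ i') (c c' : Fin b) :
    κ * (univ.filter (fun ω : Mp a b d => ω.1 i = c ∧ ω.1 i' = c')).card ≤
      (univ.filter (fun ω : Mp a b d => ω.1 i = c)).card := by
  classical
  by_cases hcd : c' = c
  · subst hcd
    have h1 : ∀ i'' ∈ (univ : Finset (Fin a)).erase i,
        (univ.filter (fun ω : Mp a b d => ω.1 i = c' ∧ ω.1 i' = c')).card ≤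
        (univ.filter (fun ω : Mp a b d => ω.1 i = c' ∧ ω.1 i'' = c')).card := by
      intro i'' hi''
      rw [mem_erase] at hi''
      refine card_le_card_of_injOn (pre (Equiv.swap i' i'')) (fun ω hω => ?_)
        (pre_injective _).injOn
      rw [mem_coe, mem_filter] at hω ⊢
      refine ⟨mem_univ _, ?_, ?_⟩
      · show ω.1 (Equiv.swap i' i'' i) = c'
        rw [Equiv.swap_apply_of_ne_of_ne hii hi''.1.symm]
        exact hω.2.1
      · show ω.1 (Equiv.swap i' i'' i'') = c'
        rw [Equiv.swap_apply_right]
        exact hω.2.2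
    have h2 : ∑ i'' ∈ (univ : Finset (Fin a)).erase i,
        (univ.filter (fun ω : Mp a b d => ω.1 i = c' ∧ ω.1 i'' = c')).card ≤
        (d - 1) * (univ.filter (fun ω : Mp a b d => ω.1 i = c')).card := by
      have h3 : ∀ i'' : Fin a, (univ.filter (fun ω : Mp a b d => ω.1 i = c' ∧ ω.1 i'' = c')).card =
          ∑ ω ∈ univ.filter (fun ω : Mp a b d => ω.1 i = c'), if ω.1 i'' = c' then 1 else 0 := by
        intro i''
        rw [← filter_filter, card_filter]
      rw [sum_congr rfl fun i'' _ => h3 i'', sum_comm, mul_comm, ← smul_eq_mul, ← sum_const]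
      refine sum_le_sum fun ω hω => ?_
      rw [← card_filter]
      have h4 := ω.2 c'
      rw [Nat.card_eq_fintype_card, Fintype.card_subtype] at h4
      have h5 : ((univ : Finset (Fin a)).erase i).filter (fun i'' => ω.1 i'' = c') =
          (univ.filter (fun i'' => ω.1 i'' = c')).erase i := by
        ext j
        simp only [mem_filter, mem_erase, mem_univ, true_and]
        tauto
      rw [h5, card_erase_of_mem (by
        rw [mem_filter]
        exact ⟨mem_univ _, (mem_filter.1 hω).2⟩)]
      omega
    have h6 : (a - 1) * (univ.filter (fun ω : Mp a b d => ω.1 i = c' ∧ ω.1 i' = c')).card ≤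
        (d - 1) * (univ.filter (fun ω : Mp a b d => ω.1 i = c')).card := by
      calc (a - 1) * (univ.filter (fun ω : Mp a b d => ω.1 i = c' ∧ ω.1 i' = c')).card =
          ∑ _i'' ∈ (univ : Finset (Fin a)).erase i,
            (univ.filter (fun ω : Mp a b d => ω.1 i = c' ∧ ω.1 i' = c')).card := by
            rw [sum_const, card_erase_of_mem (mem_univ _), card_univ, Fintype.card_fin,
              smul_eq_mul]
        _ ≤ _ := (sum_le_sum h1).trans h2
    rcases Nat.eq_zero_or_pos (d - 1) with h0 | h0
    · rw [h0, zero_mul] at h6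
      have ha : 0 < a - 1 := by
        have h7 := i.2
        have h8 := i'.2
        have h9 : i.val ≠ i'.val := fun h => hii (Fin.ext h)
        omega
      have h7 : (univ.filter (fun ω : Mp a b d => ω.1 i = c' ∧ ω.1 i' = c')).card = 0 := by
        rcases Nat.eq_zero_or_pos
          (univ.filter (fun ω : Mp a b d => ω.1 i = c' ∧ ω.1 i' = c')).card with h | h
        · exact h
        · have := Nat.mul_pos ha h
          omega
      rw [h7, mul_zero]
      exact Nat.zero_le _
    · refine Nat.le_of_mul_le_mul_left (c := d - 1) ?_ h0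
      calc (d - 1) * (κ * (univ.filter (fun ω : Mp a b d => ω.1 i = c' ∧ ω.1 i' = c')).card) =
          κ * (d - 1) * (univ.filter (fun ω : Mp a b d => ω.1 i = c' ∧ ω.1 i' = c')).card := by
            ring
        _ ≤ _ := (Nat.mul_le_mul_right _ hκa).trans h6
  · have h1 : ∀ d' ∈ (univ : Finset (Fin b)).erase c,
        (univ.filter (fun ω : Mp a b d => ω.1 i = c ∧ ω.1 i' = c')).card ≤
        (univ.filter (fun ω : Mp a b d => ω.1 i = c ∧ ω.1 i' = d')).card := by
      intro d' hd'
      rw [mem_erase] at hd'
      refine card_le_card_of_injOn (post (Equiv.swap c' d')) (fun ω hω => ?_)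
        (post_injective _).injOn
      rw [mem_coe, mem_filter] at hω ⊢
      refine ⟨mem_univ _, ?_, ?_⟩
      · show Equiv.swap c' d' (ω.1 i) = c
        rw [hω.2.1, Equiv.swap_apply_of_ne_of_ne (Ne.symm hcd) hd'.1.symm]
      · show Equiv.swap c' d' (ω.1 i') = d'
        rw [hω.2.2, Equiv.swap_apply_left]
    have h2 : ∑ d' ∈ (univ : Finset (Fin b)).erase c,
        (univ.filter (fun ω : Mp a b d => ω.1 i = c ∧ ω.1 i' = d')).card ≤
        (univ.filter (fun ω : Mp a b d => ω.1 i = c)).card := by
      rw [← card_biUnion]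
      · refine card_le_card fun ω hω => ?_
        obtain ⟨d', -, h⟩ := mem_biUnion.1 hω
        exact mem_filter.2 ⟨mem_univ _, (mem_filter.1 h).2.1⟩
      · intro d₁ _ d₂ _ hne
        rw [Function.onFun, disjoint_left]
        intro ω h₁ h₂
        exact hne ((mem_filter.1 h₁).2.2.symm.trans (mem_filter.1 h₂).2.2)
    refine (Nat.mul_le_mul_right _ hκb).trans ?_
    calc (b - 1) * (univ.filter (fun ω : Mp a b d => ω.1 i = c ∧ ω.1 i' = c')).card =
        ∑ _d' ∈ (univ : Finset (Fin b)).erase c,
          (univ.filter (fun ω : Mp a b d => ω.1 i = c ∧ ω.1 i' = c')).card := by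
          rw [sum_const, card_erase_of_mem (mem_univ _), card_univ, Fintype.card_fin, smul_eq_mul]
      _ ≤ _ := (sum_le_sum h1).trans h2

/-- The map corrected such that the value at `i` is `c`. -/
def fix (ω : Mp a b d) (i : Fin a) (c : Fin b) : Mp a b d := post (Equiv.swap (ω.1 i) c) ω

theorem fix_self (ω : Mp a b d) (i : Fin a) (c : Fin b) : (fix ω i c).1 i = c :=
  Equiv.swap_apply_left _ _

/-- The values of the corrected map at the other places are nearly uniform. -/
theorem card_fix (hκa : κ * (d - 1) ≤ a - 1) (hκb : κ ≤ b - 1) (hd : 1 ≤ d) {i i' : Fin a}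
    (hii : i ≠ i') (c c' : Fin b) :
    κ * (univ.filter (fun ω : Mp a b d => (fix ω i c).1 i' = c')).card ≤
      Fintype.card (Mp a b d) := by
  classical
  have h1 : (univ.filter (fun ω : Mp a b d => (fix ω i c).1 i' = c')).card =
      ∑ u : Fin b, (univ.filter (fun ω : Mp a b d => ω.1 i = u ∧
        ω.1 i' = Equiv.swap u c c')).card := by
    rw [card_eq_sum_card_fiberwise (f := fun ω : Mp a b d => ω.1 i) (t := univ)
      (fun _ _ => mem_univ _)]
    refine sum_congr rfl fun u _ => ?_
    congr 1
    ext ω
    simp only [mem_filter, mem_univ, true_and]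
    constructor
    · rintro ⟨h, rfl⟩
      refine ⟨rfl, ?_⟩
      have h2 : Equiv.swap (ω.1 i) c (ω.1 i') = c' := h
      rw [← h2, Equiv.swap_apply_self]
    · rintro ⟨rfl, h⟩
      refine ⟨?_, rfl⟩
      show Equiv.swap (ω.1 i) c (ω.1 i') = c'
      rw [h, Equiv.swap_apply_self]
  have h2 : ∑ u : Fin b, (univ.filter (fun ω : Mp a b d => ω.1 i = u)).card =
      Fintype.card (Mp a b d) := by
    rw [← card_univ, card_eq_sum_card_fiberwise (f := fun ω : Mp a b d => ω.1 i) (t := univ)
      (fun _ _ => mem_univ _)]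
  rw [h1, mul_sum, ← h2]
  exact sum_le_sum fun u _ => card_two hκa hκb hd hii _ _

end Pool.Agent.U20.DG
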